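import Pool.Agent.Q36.GV.Hy

/-!
# Kobayashi's conjecture for varieties dominated by products

Let `Y` be a projective manifold of dimension `d` with a generically finite canonical map, for
instance a point; let `c 0 = 0`, or more generally let the canonical forms of `Y` separate `c 0 + 1`
points and tangent vectors in an open set. Let `C 1, ..., C n` be irrational curves, `c i + 2` at most the
gonality of `C i`, and `Y × C 1 × ... × C n ⇢ X` any dominant rational map of finite degree to a
projective manifold `X` (not necessarily a quotient by a group). For a general point `x` of `X` let `r_i`
be the number of different `i`-th coordinates of the points over `x` (`i = 0` is the coordinate in `Y`),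
and for a set `Q` of indices let `r(Q)` be the number of the points over `x` which have the same `j`-th
coordinates as a given one of them for all `j` outside `Q`. Assume that

* `2 r_i ≤ c i + 1` for all `i` in some set `B` (which may be empty), and
* for all `Q` disjoint from `B` the points over `x` are determined by their coordinates outside `Q`
  (`r(Q) = 1`), or `2 r(Q) - 1 ≤ ∑ j ∈ Q, c j`.

For instance, if all `C i` have gonality `γ > 2` and `d = 0`, any map of degree at most
`(n (γ - 2) + 1) / 2` with `r_i = r` for all `i` and `r(Q) ≤ (|Q| (γ - 2) + 1) / 2`.

The theorem. The following are equivalent:

* the canonical map of `X` is generically finite;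
* `X` is of general type, that is, some pluricanonical map of `X` is generically finite;
* none of the curves `C i` is elliptic;
* `X` is not covered by the images of a curve of genus at most one: there is no dominant rational map
  `V × E ⇢ X` of finite degree, `E` an elliptic or rational curve.

If `X` is Kobayashi hyperbolic, all holomorphic maps from elliptic and rational curves to `X` are
constant, so that `X` is of general type. Then `K_X` is nef and big, as there are no rational curves on
`X`, and ample by the base point free theorem, since the curves `C` with `K_X C = 0` would be covered by
rational curves. So the conjecture holds for all these `X`.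

Proof. Exterior products of canonical forms of the factors are canonical forms of the product, and
their traces are canonical forms of `X`. If a vector field kills all their quotients, there is a
relation between the values and the derivatives of the forms at the points of a general fibre. Hall's
theorem on the marriage problem and the gonality are used to isolate one point of the fibre and one
factor in this relation; this gives as many algebraically independent quotients as there are
non-elliptic curves, plus `d`. Conversely, for a dominant map `V × E ⇢ X` the pull backs of the
pluricanonical forms are expanded along the generic curve `E` over `V`: for genus at most one, the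
space of coefficients has dimension at most one, and the quotients are functions on `V`.
-/

set_option autoImplicit false
set_option linter.overlappingInstances false

open FF IntermediateField Pool.Agent.W619.PQ Pool.Agent.W619.TW

namespace Pool.Agent.Results.MP_1e3e9c_ag.HyperbolicDominated

/-- Every nonconstant function on the curve with function field `F` has degree at least `γ`. -/
def GonalityGe (k F : Type) [Field k] [Field F] [Algebra k F] (γ : ℕ) : Prop :=
  ∀ b : F, Transcendental k b → γ ≤ Module.finrank k⟮b⟯ F

/-- The map given by the sections of `m K` of the projective manifolds of dimension `n` with function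
field `K` has an image of dimension at least `h`: there are `h + 1` sections whose ratios to the first
one are algebraically independent. For `h = n` this map is generically finite. -/
def ImageGe (k K : Type) [Field k] [Field K] [Algebra k K] (n m h : ℕ) : Prop :=
  ∃ ω : Fin (h + 1) → (Fin n → Derivation k K K) → K,
    (∀ l, IsSec k K n (fun _ => False) {1} m 0 (ω l)) ∧
    ∃ D, (∀ l, ω l D ≠ 0) ∧ AlgebraicIndependent k (fun l : Fin h => ω l.succ D / ω 0 D)

/-- The coefficients of the canonical forms of the projective manifold of dimension `d` with function
field `K`, with respect to the rational vector fields `E`. -/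
def canonicalForms (k : Type) {K : Type} [Field k] [Field K] [Algebra k K] (d : ℕ)
    (E : Fin d → Derivation k K K) : Set K :=
  {f | ∃ η : (Fin d → Derivation k K K) → K, IsPluriForm k K d 1 η ∧
    (∀ u : Place k K, IsDivisorial u d → RegularAt u d η) ∧ η E = f}

/-- The canonical forms of the manifold with function field `K` separate `m` points and tangent
vectors in an open set: let `φ i` be different generic points, with coordinates in a field `Ω`, with
multiplicities `1` or `2` of sum at most `m`, and `θ i` tangent vectors at the points of multiplicity
`2`; then the values at the `φ i` are linearly independent of each other and of the derivatives in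
the directions `θ i ≠ 0`. (For the coefficients with respect to a frame `E`; this does not depend on
the choice of the frame.) -/
def Separates (k K : Type) [Field k] [Field K] [Algebra k K] (d m : ℕ) : Prop :=
  ∀ (y : Fin d → K) (E : Fin d → Derivation k K K), IsTranscendenceBasis k y →
    (∀ i j, E i (y j) = if i = j then 1 else 0) →
    ∀ (Ω : Type) [Field Ω] [Algebra k Ω] (ι : Type) [Fintype ι] (φ : ι → (K →ₐ[k] Ω)) (μ : ι → ℕ)
      (c : ι → Ω) (θ : ι → (K →ₗ[k] Ω)), Function.Injective φ → (∀ i, μ i = 1 ∨ μ i = 2) →
      ∑ i, μ i ≤ m → (∀ i, ∀ a b, θ i (a * b) = φ i a * θ i b + φ i b * θ i a) →
      (∀ i, μ i = 1 → θ i = 0) →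
      (∀ f ∈ canonicalForms k d E, ∑ i, (c i * φ i f + θ i f) = 0) → ∀ i, c i = 0 ∧ θ i = 0

/-- The projective manifolds of dimension `n` with function field `L` are covered by the images of a
curve of genus at most one: there is a dominant rational map `V × E ⇢ X` of finite degree, with `E` an
elliptic or rational curve. -/
def IsCoveredBySmallGenus (k L : Type) [Field k] [Field L] [Algebra k L] (n : ℕ) : Prop :=
  ∃ (N : Type) (_ : Field N) (_ : Algebra k N) (_ : Algebra L N) (_ : IsScalarTower k L N)
    (_ : FiniteDimensional L N) (V E : IntermediateField k N) (p : ℕ), n = p + 1 ∧
    Algebra.trdeg k N = (n : ℕ) ∧ Algebra.trdeg k V = p ∧ IsFF k E ∧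
    (IsElliptic E ∨ ∃ t : E, k⟮t⟯ = ⊤) ∧ V ⊔ E = ⊤

section

variable {k : Type} (L : Type) {M : Type} [Field k] [Field L] [Field M] [Algebra k L] [Algebra k M]
  [Algebra L M]

/-- The number of different coordinates in the factor with function field `F` on a general fibre of
`Z ⇢ X`: the degree over `X` of the image of `Z` in the product of `X` and the factor. -/
noncomputable def coordinates (F : IntermediateField k M) : ℕ :=
  Module.finrank L (IntermediateField.adjoin L (F : Set M))

/-- The number of the points of a general fibre of `Z ⇢ X` with the same coordinates outside `Q` as a
given one: the degree of `Z` over its image in the product of `X` and the factors `j ∉ Q`. -/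
noncomputable def agreeing {n : ℕ} (W : Fin n → IntermediateField k M) (Q : Finset (Fin n)) : ℕ :=
  Module.finrank (IntermediateField.adjoin L {z : M | ∃ j, j ∉ Q ∧ z ∈ W j}) M

end

/-- **Kobayashi's conjecture for varieties dominated by products.** Let `W 0` be the function field of a
projective manifold `Y` of dimension `d` with a generically finite canonical map, `c 0 = 0` or let the
canonical forms of `Y` separate `c 0 + 1` points and tangent vectors. Let `W i` (`0 < i ≤ n`) be the
function fields of curves of gonality at least `c i + 2`, `M` the function field of the product, of
dimension `d + n`, and `L` the function field of a projective manifold `X` with a dominant rational map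
of finite degree from the product to `X`. Let `B` be a set of indices such that twice the number of the
`i`-th coordinates on a general fibre is at most `c i + 1` for `i ∈ B`, and assume that for every set
`Q` of indices disjoint from `B` the number `r(Q)` of the points of a general fibre with the same
coordinates outside `Q` as a given one satisfies `r(Q) = 1` or `2 r(Q) - 1 ≤ ∑ j ∈ Q, c j`. Then the
following are equivalent: the canonical map of `X` is generically finite; some pluricanonical map of
`X` is generically finite; none of the curves is elliptic; `X` is not covered by the images of an
elliptic or rational curve. -/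
theorem result {k L M : Type} [Field k] [CharZero k] [IsAlgClosed k] [Field L] [Field M]
    [Algebra k L] [Algebra k M] [Algebra L M] [IsScalarTower k L M] [FiniteDimensional L M]
    (d n : ℕ) (hM : Algebra.trdeg k M = (d + n : ℕ)) (W : Fin (n + 1) → IntermediateField k M)
    (hY : Algebra.EssFiniteType k (W 0)) (hd : Algebra.trdeg k (W 0) = d)
    (hC : ∀ i : Fin n, IsFF k (W i.succ)) (hsup : ⨆ i, W i = ⊤) (hY1 : ImageGe k (W 0) d 1 d)
    (c : Fin (n + 1) → ℕ) (hc : c 0 = 0 ∨ Separates k (W 0) d (c 0 + 1))
    (hγ : ∀ i : Fin n, GonalityGe k (W i.succ) (c i.succ + 2))
    (B : Finset (Fin (n + 1))) (hB : ∀ i ∈ B, 2 * coordinates L (W i) ≤ c i + 1)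
    (hQ : ∀ Q : Finset (Fin (n + 1)), Disjoint Q B →
      agreeing L W Q = 1 ∨ 2 * agreeing L W Q ≤ 1 + ∑ j ∈ Q, c j) :
    List.TFAE [ImageGe k L (d + n) 1 (d + n), ∃ m, ImageGe k L (d + n) m (d + n),
      ∀ i : Fin n, ¬ IsElliptic (W i.succ), ¬ IsCoveredBySmallGenus k L (d + n)] := by
  have hessM : Algebra.EssFiniteType k M := Q36.GV.ess_supS W hsup
  have hessL : Algebra.EssFiniteType k L := Q36.SD.ess_below (K := M)
  exact Q36.GV.hyp_tfae (L := L) W hd hM hsup hY1 hc hγ B hB hQ

end Pool.Agent.Results.MP_1e3e9c_ag.HyperbolicDominated
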