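import Mathlib
import Pool.Agent.Q103.EC.Hyp
import Pool.Agent.Q103.EC.Gen

/-!
# Kobayashi's conjecture for varieties which carry a map with many preperiodic points

`X` is an integral projective variety over `ℂ` (no smoothness is assumed) of dimension `w ≥ 1`, given by
its function field `K` and its generic point `x`: homogeneous coordinates in `K` whose ratios generate
`K` (`x ≠ 0`, `coords ℂ x = ⊤`).

`ManyPrep ℂ d B p q` (`Pool/Agent/Q103/EC/Mxv.lean`): `f = p / q` is a rational map of the projective
line over `K` of degree `d` (a family of rational maps over an open subset of `X`) with at least `B`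
preperiodic points in `P^1(K)` (preperiodic rational sections; on `X` they may collide, and `f` may
degenerate) and with generically finite moduli map `X ⇢ M_d`, i.e. maximal variation (`MaxVar`):
whenever `f` is conjugate over an algebraic closure of `K` to a map with coefficients algebraic over a
field `F` between `ℂ` and `K`, then `K` is algebraic over `F`.

The last part of the theorem says that for all `d` and `B` there are such varieties of dimension
`2 d - 2`: the components of the space of the maps of degree `d` with a marked point of exact period
`n ≥ B`, `3` (`Pool.Agent.Q103.EC.exists_variety`); all their generically finite covers, and all their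
subvarieties of positive dimension which meet the locus of exact period `n`, are examples too.

`GeneralType ℂ K w`: `X` is of general type: for some `N > 0` there are `N`-canonical forms of the
function field, regular at all prime divisors of all models, with `w` algebraically independent
ratios. If `X` is smooth, of general type and Kobayashi hyperbolic, then it contains no rational curves,
and the canonical class is ample by known theorems (Mori, Kawamata).

`KobayashiOff x R`: the proper closed subset `Z` of `X` given by the form `R` (`val x R ≠ 0`) contains the
images of all nonconstant entire curves in `X` (`EntireCurve`), and `X` is Kobayashi hyperbolic modulo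
`Z`: the Kobayashi pseudodistance of two different points of `X` which are not both in `Z` is positive,
i.e. the lengths of the chains of holomorphic discs which join them are bounded below by a positive
number (`Chain x a b l`: the points `a`, `b` are joined by a finite chain of holomorphic discs with sum of
Poincare distances `l`; `SameP a b`: the same point of the projective space).

Proof (project GT of helper41, projects EC and KO of helper103). Determinants of preperiodic points
and of their derivatives give symmetric differentials on `X` which vanish to a high order where `f` has
bad reduction; arbitrary derivatives can be replaced by the logarithmic derivatives of the cross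
ratios of the points, over which the products of these determinants with the cross ratios are integral.
-/

set_option autoImplicit false

namespace Pool.Agent.Results.MP_1e3e9c_ag.ManyPreperiodicPoints

open FF Polynomial Metric
open Pool.Agent.W602.GT
open Pool.Agent.Q103.EC (ManyPrep)
open Pool.Agent.Y221.BD (EntireCurve)
open Pool.Agent.Q103.KO (IsPoint SameP Chain)

/-- The projective variety with the generic point `x` is Kobayashi hyperbolic modulo the proper closed
subset given by the form `R`, which contains all nonconstant entire curves. -/
structure KobayashiOff {M : ℕ} {K : Type} [Field K] [Algebra ℂ K] (x : Fin (M + 1) → K)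
    (R : MvPolynomial (Fin (M + 1)) ℂ) : Prop where
  form : IsForm R
  ne : val x R ≠ 0
  brody : ∀ f, EntireCurve x f → ∀ t, MvPolynomial.eval (fun i => f i t) R = 0
  kobayashi : ∀ a b : Fin (M + 1) → ℂ, IsPoint x a → IsPoint x b → ¬ SameP a b →
    (MvPolynomial.eval a R ≠ 0 ∨ MvPolynomial.eval b R ≠ 0) →
    ∃ ε : ℝ, 0 < ε ∧ ∀ l : ℝ, Chain x a b l → ε ≤ l

/-- For every `d ≥ 2` there is `B` such that every projective variety `X` whose function field carries a
rational map of degree `d` with at least `B` preperiodic points and generically finite moduli map
is of general type; and it is Kobayashi hyperbolic modulo a proper closed subset. There are such `X` of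
dimension `2 d - 2` for all `B`. -/
theorem result (d : ℕ) (hd : 2 ≤ d) :
    (∃ B : ℕ, ∀ (K : Type) [Field K] [Algebra ℂ K] (p q : K[X]), ManyPrep ℂ d B p q →
      ∀ w : ℕ, 1 ≤ w → Algebra.trdeg ℂ K = w → ∀ (M : ℕ) (x : Fin (M + 1) → K), x ≠ 0 →
      coords ℂ x = ⊤ → GeneralType ℂ K w ∧ ∃ R, KobayashiOff x R) ∧
    ∀ n : ℕ, 3 ≤ n → ∃ (K : Type) (_ : Field K) (_ : Algebra ℂ K) (p q : K[X]),
      ManyPrep ℂ d n p q ∧ Algebra.trdeg ℂ K = (2 * d - 2 : ℕ) ∧
      ∃ (M : ℕ) (x : Fin (M + 1) → K), x ≠ 0 ∧ coords ℂ x = ⊤ := by
  refine ⟨?_, fun n hn => Pool.Agent.Q103.EC.exists_variety d hd n hn⟩
  obtain ⟨B, hB⟩ := Pool.Agent.Q103.EC.main d hd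
  refine ⟨B, fun K _ _ p q h w hw htr M x hx hgen => ?_⟩
  obtain ⟨h1, h2⟩ := hB K p q h w hw htr
  obtain ⟨R, hR⟩ := h2 M x hx hgen
  exact ⟨h1, R, hR.form, hR.ne, hR.curve, hR.kobayashi⟩

end Pool.Agent.Results.MP_1e3e9c_ag.ManyPreperiodicPoints
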