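import Pool.Agent.Q36.QH.Main

/-!
# Kobayashi's conjecture for quotients of products of curves

Let `X` be a projective manifold which is birational to a quotient `(C 1 × ... × C n) / G` of a product
of arbitrary curves by a finite group `G` (which may permute the factors and may have fixed points, in
codimension at least `N`). Then `X` is covered by the images of a curve of genus at most one if and
only if one of the curves `C i` has genus at most one, and otherwise the `42`-canonical map and the
`m`-canonical maps, `m ≥ 48` divisible by `12`, of `X` are generically finite; these numbers do not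
depend on the dimension, on the curves or on the group. So if `X` is Kobayashi hyperbolic, it is of
general type; as it contains no rational curves, `K_X` is ample (Mori, Kawamata).

The language and the definitions of `Pool.Agent.W619` (the file
`MP_c2a5fc_ag/MixedQuotients.lean`) are used.
-/

set_option autoImplicit false
set_option linter.overlappingInstances false

open FF IntermediateField Pool.Agent.W619.PQ Pool.Agent.W619.PL Pool.Agent.W619.TW
  Pool.Agent.W619.X Pool.Agent.W619.Y

namespace Pool.Agent.Results.MP_1e3e9c_ag.ProductQuotients

/-- The image of the map given by the sections of `m K_X` has dimension at least `h`: there are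
`h + 1` sections of `m K_X` whose ratios to the first one are algebraically independent. -/
def ImageGe (k : Type) (K : Type) [Field k] [Field K] [Algebra k K] (n m h : ℕ) : Prop :=
  ∃ ω : Fin (h + 1) → (Fin n → Derivation k K K) → K,
    (∀ l, IsSec k K n (fun _ => False) {1} m 0 (ω l)) ∧
    ∃ D, (∀ l, ω l D ≠ 0) ∧ AlgebraicIndependent k (fun l : Fin h => ω l.succ D / ω 0 D)

/-- The projective manifolds of dimension `n` with function field `L` are covered by the images of a
curve of genus at most one: there is a dominant rational map `V × E ⇢ X` of finite degree, with `E` an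
elliptic or rational curve. -/
def IsCoveredBySmallGenus (k L : Type) [Field k] [Field L] [Algebra k L] (n : ℕ) : Prop :=
  ∃ (N : Type) (_ : Field N) (_ : Algebra k N) (_ : Algebra L N) (_ : IsScalarTower k L N)
    (_ : FiniteDimensional L N) (V E : IntermediateField k N) (p : ℕ), n = p + 1 ∧
    Algebra.trdeg k N = (n : ℕ) ∧ Algebra.trdeg k V = p ∧ IsFF k E ∧
    (IsElliptic E ∨ ∃ t : E, k⟮t⟯ = ⊤) ∧ V ⊔ E = ⊤

/-- Let `F i` (`i < n`) be the function fields of curves `C i`, `L` the function field of a projective
variety `Z` of dimension `n` with a generically finite rational map to the product of the curves, `G` a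
finite group of automorphisms of `L` which permutes the curves through `σ`, and `X` a projective
manifold birational to `Z / G`. Assume `MixedPos`: for some `N ≥ 2` the fixed locus of each `g ≠ 1` in
`G` on the product of the curves is empty or of codimension at least `N` (for instance `G` acts
freely), and for each `i`: `N ≥ 7` (`5` if `3` does not divide the order of `G`, `4` if the order is
odd), or the quotient of `C i` by its stabilizer is irrational or has at least `5` branch points (`4`
if `C i` is elliptic), or it has an orbifold divisor of positive degree (nonnegative degree if `C i` is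
elliptic) with coefficients at most `1 - 1 / N`, or `C i` is rational.

(1) If none of the curves is elliptic or rational, then the `m`-canonical map of `X` is generically
finite for `m = 42` and for all `m ≥ 48` divisible by `12`, and `X` is not covered by the images of an
elliptic or rational curve.

(2) Let `Z` be the product of the curves. The following are equivalent: the `42`-canonical map of `X`
is generically finite; the `48`-canonical map is generically finite; some `m`-canonical map is
generically finite (`X` is of general type); none of the curves is elliptic or rational; `X` is not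
covered by the images of an elliptic or rational curve. -/
theorem result {k L : Type} [Field k] [CharZero k] [IsAlgClosed k] [Field L] [Algebra k L]
    [Algebra.EssFiniteType k L] (n : ℕ) (hn : Algebra.trdeg k L = n)
    (F : Fin n → IntermediateField k L) (hF : ∀ i, IsFF k (F i))
    (halg : Algebra.IsAlgebraic ↥(⨆ i, F i) L)
    (G : Subgroup (L ≃ₐ[k] L)) [Finite G] (σ : G →* Equiv.Perm (Fin n))
    (hσ : ∀ (g : G) i, ∀ z ∈ F i, (g : L ≃ₐ[k] L) z ∈ F (σ g i))
    (h : MixedPos G σ F) :
    ((∀ i, ¬ IsElliptic (F i) ∧ ¬ ∃ t : F i, k⟮t⟯ = ⊤) →
      (∀ m : ℕ, ((48 ≤ m ∧ 12 ∣ m) ∨ m = 42) → ImageGe k (fixedField G) n m n) ∧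
      ¬ IsCoveredBySmallGenus k (fixedField G) n) ∧
    (⨆ i, F i = ⊤ → List.TFAE [ImageGe k (fixedField G) n 42 n,
      ImageGe k (fixedField G) n 48 n,
      ∃ m, ImageGe k (fixedField G) n m n,
      ∀ i, ¬ IsElliptic (F i) ∧ ¬ ∃ t : F i, k⟮t⟯ = ⊤,
      ¬ IsCoveredBySmallGenus k (fixedField G) n]) := by
  refine ⟨fun h4 => ?_, fun hsup => Q36.QH.quot_tfae hn F hsup G σ hσ h⟩
  have h5 : ∀ m : ℕ, ((48 ≤ m ∧ 12 ∣ m) ∨ m = 42) → ImageGe k (fixedField G) n m n :=
    fun m hm => Q36.QH.image_n hn F halg G σ hσ h (fun i => (h4 i).2) (fun i => (h4 i).1) m hm
  obtain ⟨hK, -⟩ := Q36.PT.ess_fixed hn G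
  exact ⟨h5, fun hcov => Q36.GV.not_big_of_cov hcov (h5 42 (Or.inr rfl))⟩

end Pool.Agent.Results.MP_1e3e9c_ag.ProductQuotients
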